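import Pool.Agent.KS6_18.Eng.Group

set_option autoImplicit false

namespace Pool.Agent.Results.MP_698b85_al.ExactlyKAtMostTwo

universe u

/-- The Engel word `[x, _k y]`, with `[a, b] = a⁻¹ b⁻¹ a b`. -/
def engel {G : Type u} [Group G] (k : ℕ) (x y : G) : G := (fun z => z⁻¹ * y⁻¹ * z * y)^[k] x

/-- `E_k^*`: every infinite subset contains distinct `x, y` with `[x, _k y] = [y, _k x] = 1`. -/
def IsStar (k : ℕ) (G : Type u) [Group G] : Prop :=
  ∀ S : Set G, S.Infinite → ∃ x ∈ S, ∃ y ∈ S, x ≠ y ∧ engel k x y = 1 ∧ engel k y x = 1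

/-- `E_k^°`: every infinite subset contains distinct `x, y` generating a `k`-Engel subgroup. -/
def IsCirc (k : ℕ) (G : Type u) [Group G] : Prop :=
  ∀ S : Set G, S.Infinite → ∃ x ∈ S, ∃ y ∈ S, x ≠ y ∧
    ∀ a ∈ Subgroup.closure ({x, y} : Set G), ∀ b ∈ Subgroup.closure ({x, y} : Set G),
      engel k a b = 1

/-- two elements with `[x, _2 y] = [y, _2 x] = 1` generate a group of class at most two -/
theorem two {G : Type u} [Group G] {x y : G} (h1 : engel 2 x y = 1) (h2 : engel 2 y x = 1) :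
    ∀ a ∈ Subgroup.closure ({x, y} : Set G), ∀ b ∈ Subgroup.closure ({x, y} : Set G),
      engel 2 a b = 1 := by
  set c : G := x⁻¹ * y⁻¹ * x * y with hc
  have e1 : c * y = y * c := by
    have h : c⁻¹ * y⁻¹ * c * y = 1 := h1
    calc c * y = y * c * (c⁻¹ * y⁻¹ * c * y) := by group
      _ = y * c := by rw [h, mul_one]
  have e2 : c * x = x * c := by
    have h : (y⁻¹ * x⁻¹ * y * x)⁻¹ * x⁻¹ * (y⁻¹ * x⁻¹ * y * x) * x = 1 := h2
    have h3 : y⁻¹ * x⁻¹ * y * x = c⁻¹ := by rw [hc]; group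
    rw [h3, inv_inv] at h
    have h4 : x⁻¹ * c⁻¹ * x = c⁻¹ := by
      calc x⁻¹ * c⁻¹ * x = c⁻¹ * (c * x⁻¹ * c⁻¹ * x) := by group
        _ = c⁻¹ := by rw [h, mul_one]
    have h5 : x⁻¹ * c * x = c := by
      calc x⁻¹ * c * x = (x⁻¹ * c⁻¹ * x)⁻¹ := by group
        _ = c := by rw [h4, inv_inv]
    calc c * x = x * (x⁻¹ * c * x) := by group
      _ = x * c := by rw [h5]
  set Z := Subgroup.centralizer ({x, y} : Set G) with hZ
  have hcZ : c ∈ Z := by
    rw [Subgroup.mem_centralizer_iff]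
    rintro h (rfl | rfl)
    · exact e2.symm
    · exact e1.symm
  have hcomm : ∀ z ∈ Z, ∀ a ∈ Subgroup.closure ({x, y} : Set G), a * z = z * a := by
    intro z hz a ha
    have h : Subgroup.closure ({x, y} : Set G) ≤ Subgroup.centralizer {z} := by
      rw [Subgroup.closure_le]
      intro w hw
      rw [SetLike.mem_coe, Subgroup.mem_centralizer_iff]
      rintro _ rfl
      exact (Subgroup.mem_centralizer_iff.1 hz w hw).symm
    exact (Subgroup.mem_centralizer_iff.1 (h ha) z rfl).symm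
  have hgen : ∀ a ∈ ({x, y} : Set G), ∀ b ∈ ({x, y} : Set G), a⁻¹ * b⁻¹ * a * b ∈ Z := by
    rintro a (rfl | rfl) b (rfl | rfl)
    · simp [one_mem]
    · exact hcZ
    · have : a⁻¹ * b⁻¹ * a * b = c⁻¹ := by rw [hc]; group
      rw [this]; exact inv_mem hcZ
    · simp [one_mem]
  have step1 : ∀ a ∈ Subgroup.closure ({x, y} : Set G), ∀ b ∈ ({x, y} : Set G),
      a⁻¹ * b⁻¹ * a * b ∈ Z := by
    intro a ha b hb
    induction ha using Subgroup.closure_induction with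
    | mem a ha => exact hgen a ha b hb
    | one => simp [one_mem]
    | mul a a' ha ha' h h' =>
      have : (a * a')⁻¹ * b⁻¹ * (a * a') * b =
          a'⁻¹ * (a⁻¹ * b⁻¹ * a * b) * a' * (a'⁻¹ * b⁻¹ * a' * b) := by group
      rw [this, mul_assoc a'⁻¹, ← hcomm _ h a' ha']
      have h3 : a'⁻¹ * (a' * (a⁻¹ * b⁻¹ * a * b)) = a⁻¹ * b⁻¹ * a * b := by group
      rw [h3]
      exact mul_mem h h'
    | inv a ha h =>
      have : (a⁻¹)⁻¹ * b⁻¹ * a⁻¹ * b = a * (a⁻¹ * b⁻¹ * a * b)⁻¹ * a⁻¹ := by group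
      rw [this, hcomm _ (inv_mem h) a ha]
      have h3 : (a⁻¹ * b⁻¹ * a * b)⁻¹ * a * a⁻¹ = (a⁻¹ * b⁻¹ * a * b)⁻¹ := by group
      rw [h3]
      exact inv_mem h
  have step2 : ∀ a ∈ Subgroup.closure ({x, y} : Set G),
      ∀ b ∈ Subgroup.closure ({x, y} : Set G), a⁻¹ * b⁻¹ * a * b ∈ Z := by
    intro a ha b hb
    induction hb using Subgroup.closure_induction with
    | mem b hb => exact step1 a ha b hb
    | one => simp [one_mem]
    | mul b b' hb hb' h h' =>
      have : a⁻¹ * (b * b')⁻¹ * a * (b * b') =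
          (a⁻¹ * b'⁻¹ * a * b') * (b'⁻¹ * (a⁻¹ * b⁻¹ * a * b) * b') := by group
      rw [this, mul_assoc b'⁻¹, ← hcomm _ h b' hb']
      have h3 : b'⁻¹ * (b' * (a⁻¹ * b⁻¹ * a * b)) = a⁻¹ * b⁻¹ * a * b := by group
      rw [h3]
      exact mul_mem h' h
    | inv b hb h =>
      have : a⁻¹ * (b⁻¹)⁻¹ * a * b⁻¹ = b * (a⁻¹ * b⁻¹ * a * b)⁻¹ * b⁻¹ := by group
      rw [this, hcomm _ (inv_mem h) b hb]
      have h3 : (a⁻¹ * b⁻¹ * a * b)⁻¹ * b * b⁻¹ = (a⁻¹ * b⁻¹ * a * b)⁻¹ := by group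
      rw [h3]
      exact inv_mem h
  intro a ha b hb
  have h3 := hcomm _ (step2 a ha b hb) b hb
  show (a⁻¹ * b⁻¹ * a * b)⁻¹ * b⁻¹ * (a⁻¹ * b⁻¹ * a * b) * b = 1
  generalize a⁻¹ * b⁻¹ * a * b = z at h3
  calc z⁻¹ * b⁻¹ * z * b = z⁻¹ * b⁻¹ * (z * b) := by group
    _ = z⁻¹ * b⁻¹ * (b * z) := by rw [h3]
    _ = 1 := by group

theorem one' {G : Type u} [Group G] {x y : G} (h1 : engel 1 x y = 1) :
    ∀ a ∈ Subgroup.closure ({x, y} : Set G), ∀ b ∈ Subgroup.closure ({x, y} : Set G),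
      engel 1 a b = 1 := by
  have e1 : x * y = y * x := by
    have h : x⁻¹ * y⁻¹ * x * y = 1 := h1
    calc x * y = y * x * (x⁻¹ * y⁻¹ * x * y) := by group
      _ = y * x := by rw [h, mul_one]
  have h2 : ∀ w ∈ ({x, y} : Set G), ∀ a ∈ Subgroup.closure ({x, y} : Set G), w * a = a * w := by
    intro w hw a ha
    have h : Subgroup.closure ({x, y} : Set G) ≤ Subgroup.centralizer {w} := by
      rw [Subgroup.closure_le]
      intro v hv
      rw [SetLike.mem_coe, Subgroup.mem_centralizer_iff]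
      rintro _ rfl
      rcases hw with rfl | rfl <;> rcases hv with rfl | rfl
      · rfl
      · exact e1
      · exact e1.symm
      · rfl
    exact Subgroup.mem_centralizer_iff.1 (h ha) w rfl
  intro a ha b hb
  have h : Subgroup.closure ({x, y} : Set G) ≤ Subgroup.centralizer {b} := by
    rw [Subgroup.closure_le]
    intro v hv
    rw [SetLike.mem_coe, Subgroup.mem_centralizer_iff]
    intro w hw
    rw [Set.mem_singleton_iff] at hw
    rw [hw]
    exact (h2 v hv b hb).symm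
  have h3 : b * a = a * b := Subgroup.mem_centralizer_iff.1 (h ha) b rfl
  show a⁻¹ * b⁻¹ * a * b = 1
  calc a⁻¹ * b⁻¹ * a * b = a⁻¹ * b⁻¹ * (a * b) := by group
    _ = a⁻¹ * b⁻¹ * (b * a) := by rw [h3]
    _ = 1 := by group

/-- **The answer for every `k`.** For `k = 1` and `k = 2` every `E_k^*`-group is an `E_k^°`-group
(any pair with `[x, _k y] = [y, _k x] = 1` generates a `k`-Engel group). For every `k ≥ 3` this
fails, already for a nilpotent metabelian group of class exactly `k + 1` (a nilpotent group of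
class at most `k` is `k`-Engel, so the class is as small as possible): it is an `E_k^*`-group and
has an infinite subset no two distinct elements of which generate a `k`-Engel subgroup. -/
theorem result :
    (∀ k : ℕ, 1 ≤ k → k ≤ 2 → ∀ (G : Type u) [Group G], IsStar k G → IsCirc k G) ∧
    (∀ k : ℕ, 3 ≤ k → ∃ (G : Type) (_ : Group G) (_ : Group.IsNilpotent G),
      Group.nilpotencyClass G = k + 1 ∧
      (∀ a b c d : G, (a⁻¹ * b⁻¹ * a * b) * (c⁻¹ * d⁻¹ * c * d) =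
        (c⁻¹ * d⁻¹ * c * d) * (a⁻¹ * b⁻¹ * a * b)) ∧
      IsStar k G ∧ ¬ IsCirc k G) := by
  constructor
  · intro k hk1 hk2 G _ h S hS
    obtain ⟨x, hx, y, hy, hxy, h1, h2⟩ := h S hS
    refine ⟨x, hx, y, hy, hxy, ?_⟩
    obtain rfl | rfl : k = 1 ∨ k = 2 := by omega
    · exact one' h1
    · exact two h1 h2
  · intro k hk
    obtain ⟨n, rfl⟩ : ∃ n, k = n + 2 := ⟨k - 2, by omega⟩
    have hn : 1 ≤ n := by omega
    obtain ⟨R, _, x, y, hX, hY, hc⟩ := KS6_18.Eng.exists_ring n (2 * (n + 1))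
    obtain ⟨h1, h2⟩ := KS6_18.Eng.nil hX hY hc
    refine ⟨KS6_18.Eng.GG x y, inferInstance, h1, h2, KS6_18.Eng.metab,
      fun S hS => KS6_18.Eng.star hX hn hY hc S hS, fun h => ?_⟩
    obtain ⟨S, hS, h3⟩ := KS6_18.Eng.circ hX hY hc
    obtain ⟨g, hg, g', hg', hne, h4⟩ := h S hS
    obtain ⟨a, ha, b, hb, h5⟩ := h3 g hg g' hg' hne
    exact h5 (h4 a ha b hb)

end Pool.Agent.Results.MP_698b85_al.ExactlyKAtMostTwo
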